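import Pool.Agent.E8helper40.OR.Hodge

/-!
# Complete intersections and classes of small defect: definitions
-/

set_option autoImplicit false

open CategoryTheory AlgebraicGeometry

namespace Pool.Agent.E8helper34.OM

open Pool.Agent.H914 Pool.Agent.H914.VarClass Pool.Agent.H914.VarClass.Obj Pool.Agent.W492.BB
  Pool.Agent.E8helper40.OR

variable {k : Type} [Field k] {𝒱 : VarClass k} {C : TheoryData.{0, 0, 0} 𝒱 ℚ}

/-- The product of a cohomology class with `L ^ j`. -/
noncomputable def lpow (H : WeilTheoryData.{0, 0, 0} C ℂ) {X : 𝒱.Obj} (L : C.A X) (j : ℕ)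
    (x : H.A X) : H.A X := cyc H L ^ j * x

variable {H : WeilTheoryData.{0, 0, 0} C ℂ} (T : HodgeData H) {X Y : 𝒱.Obj}

/-- The product with `L ^ j` is injective on the cohomology of `X` in degree `dim X - 2 - j`. -/
def Small (L : C.A X) : Prop :=
  ∀ (p q : ℤ) (j : ℕ), p + q + j + 2 = X.dim → ∀ x : H.A X, T.Ty p q x → lpow H L j x = 0 → x = 0

/-- The restriction along `i : S → X` behaves as the restriction to a complete intersection `S` of
`j` general members of a base point free linear system with class `μ L`, where `a = μ ^ j`: the class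
of `S` is `a L ^ j`, and a class `x` of `X` with `L ^ j x = 0` is zero on `S` (by Deligne the image of
the restriction is the monodromy invariant part of the cohomology of `S`, on which the cup
product is non-degenerate).  The class of a hyperplane section of `S` is the restriction of that
of `X`. -/
structure IsSection {S X : 𝒱.Obj} (i : S ⟶ X) (L : C.A X) (j : ℕ) (a : ℂ) : Prop where
  dim : S.dim + j = X.dim
  ne : a ≠ 0
  cls : H.down i 1 = sc H a (lpow H L j 1)
  hyp : H.up i (cyc H (T.hyp X)) = cyc H (T.hyp S)
  ker : ∀ x : H.A X, lpow H L j x = 0 → H.up i x = 0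

/-- There are sections of `X` and `Y` of dimension `m` for `3 ≤ m < dim X`. -/
def Sections (L : C.A X) (L' : C.A Y) : Prop :=
  ∀ j m : ℕ, 1 ≤ j → 3 ≤ m → m + j = X.dim → ∃ (S S' : 𝒱.Obj) (i : S ⟶ X) (i' : S' ⟶ Y) (a : ℂ),
    IsSection T i L j a ∧ IsSection T i' L' j a

/-- `L` and `L'` are the first Chern classes, or the action of `v` on cohomology is compatible
with them. -/
def Compatible (v : C.A (X.prod Y)) (L : C.A X) (L' : C.A Y) : Prop :=
  (L = T.c₁ X ∧ L' = T.c₁ Y) ∨ ∀ x : H.A X, cact H v (lpow H L 1 x) = lpow H L' 1 (cact H v x)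

end Pool.Agent.E8helper34.OM
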