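import Pool.Agent.E8helper40.OR.Stmt
import Pool.Agent.E8helper34.OH.Rel

/-!
# The motives of derived equivalent varieties with a fibration of small defect
-/

set_option autoImplicit false
set_option linter.unusedSectionVars false

open CategoryTheory AlgebraicGeometry
open scoped ComplexConjugate

namespace Pool.Agent.E8helper34.OM

open Pool.Agent.H914 Pool.Agent.H914.VarClass Pool.Agent.H914.VarClass.Obj Pool.Agent.W492.BB
  Pool.Agent.W539.DI Pool.Agent.R941.OH Pool.Agent.E8helper40.OR Pool.Agent.R929.DH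
  Pool.Agent.E8helper34.OH

variable {k : Type} [Field k] {𝒱 : VarClass k} {C : TheoryData.{0, 0, 0} 𝒱 ℚ}
  {H : WeilTheoryData.{0, 0, 0} C ℂ}
  [hC : Pool.Agent.TH133.IsChowProj C] [hH : Pool.Agent.TH133.IsWeilProj H]
  {X Y Z : 𝒱.Obj} {T : HodgeTheory H} {n : ℕ} {hX : X.dim = n} {hY : Y.dim = n}
  {v : C.A (X.prod Y)} {w : C.A (Y.prod X)}

section mult

variable (hK : MukaiKernel T X Y hX hY v w) (A : Act (E H X) (T.coh X hX))
  (hA : A.ρ = ρ0 H X) (B : Act (E H X) (T.coh Y hY)) (hB' : B.ρ = rY hK)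
  (hB : LefschetzType T X)

include hA hB' in
theorem mult_all [FiniteDimensional ℚ (E H X)] (S : Submodule (E H X) (E H X))
    (hl : ∀ j, j + 2 ≤ n → tS S (A.L.p j) = tS S (B.L.p j))
    (h00 : tS S (A.L.p 0) = tS S (B.L.p 0)) :
    ∀ m, m ≤ 2 * n → tS S (A.L.p m) = tS S (B.L.p m) := by
  have hΦ : ∀ a x, (fm hK).φ (A.ρ a x) = B.ρ a ((fm hK).φ x) := by
    intro a x
    rw [hA, hB']
    show phi hK _ = rY hK a (phi hK x)
    rw [rY_apply, LinearEquiv.symm_apply_apply]
  have h1 : 1 ≤ n → tS S (A.L.p (n - 1)) = tS S (B.L.p (n - 1)) := by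
    intro hn
    have h := core3 A B (fm hK) hΦ S
    refine OH.sum_cancel h (i := n - 1) ?_ fun j hj hne => hl j ?_
    · rw [Finset.mem_filter, Finset.mem_range]
      omega
    · rw [Finset.mem_filter, Finset.mem_range] at hj
      omega
  have h0 : tS S (A.L.p n) = tS S (B.L.p n) := by
    have h := core2 A B (fm hK) hΦ S
    have h' : A.L.mM (tS S) n = B.L.mM (tS S) n := by
      unfold Lef.mM
      refine Finset.sum_congr rfl fun j hj => hl j ?_
      rw [Finset.mem_filter, Finset.mem_range] at hj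
      omega
    rw [h'] at h
    exact add_right_cancel h
  have hle : ∀ m, m ≤ n → tS S (A.L.p m) = tS S (B.L.p m) := by
    intro m hm
    by_cases h3 : m + 2 ≤ n
    · exact hl m h3
    · by_cases e0 : m = n
      · rw [e0]; exact h0
      · have e1 : m = n - 1 := by omega
        rw [e1]; exact h1 (by omega)
  intro m hm
  by_cases h : m ≤ n
  · exact hle m h
  · obtain ⟨i, hi⟩ : ∃ i, m = n + i := ⟨m - n, by omega⟩
    rw [hi, A.L.t_sym (tS S) (tS_mul S) (by omega), B.L.t_sym (tS S) (tS_mul S) (by omega)]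
    exact hle _ (by omega)

include hA hB' hB in
/-- The isomorphism of homological motives, inside the algebra. -/
theorem exists_FG' [IsSemisimpleRing (E H X)] [FiniteDimensional ℚ (E H X)]
    (hmult : ∀ (S : Submodule (E H X) (E H X)) (m : ℕ), m ≤ 2 * n →
      tS S (A.L.p m) = tS S (B.L.p m)) :
    ∃ F G : E H X, G * F = 1 ∧ F * G = 1 ∧
      IsAlgD H 0 ((phi hK : H.A X →ₗ[ℂ] H.A Y) ∘ₗ ρ0 H X F) ∧
      IsAlgD H 0 (ρ0 H X G ∘ₗ ((phi hK).symm : H.A Y →ₗ[ℂ] H.A X)) := by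
  classical
  have hex : ∀ m : ℕ, ∃ a b : E H X, m ≤ 2 * n → a * b = A.L.p m ∧ b * a = B.L.p m := by
    intro m
    by_cases hm : m ≤ 2 * n
    · obtain ⟨a, b, h⟩ := idem_equiv (A.L.p_self m) (B.L.p_self m) (fun S => hmult S m hm)
      exact ⟨a, b, fun _ => h⟩
    · exact ⟨0, 0, fun h => absurd h hm⟩
  choose a b hab using hex
  refine ⟨∑ m ∈ Finset.range (2 * n + 1), B.L.p m * b m * A.L.p m,
    ∑ m ∈ Finset.range (2 * n + 1), A.L.p m * a m * B.L.p m, ?_, ?_, ?_, ?_⟩
  · rw [Finset.sum_mul_sum, ← A.L.sum]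
    refine Finset.sum_congr rfl fun m hm => ?_
    have hm' : m ≤ 2 * n := by rw [Finset.mem_range] at hm; omega
    rw [Finset.sum_eq_single m]
    · calc A.L.p m * a m * B.L.p m * (B.L.p m * b m * A.L.p m)
          = A.L.p m * a m * (B.L.p m * B.L.p m) * b m * A.L.p m := by simp only [mul_assoc]
        _ = A.L.p m * a m * (b m * a m) * b m * A.L.p m := by
            rw [B.L.p_self, (hab m hm').2]
        _ = A.L.p m * ((a m * b m) * (a m * b m)) * A.L.p m := by simp only [mul_assoc]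
        _ = A.L.p m := by rw [(hab m hm').1, A.L.p_self, A.L.p_self, A.L.p_self]
    · intro l _ hlm
      calc A.L.p m * a m * B.L.p m * (B.L.p l * b l * A.L.p l)
          = A.L.p m * a m * (B.L.p m * B.L.p l) * b l * A.L.p l := by simp only [mul_assoc]
        _ = 0 := by rw [B.L.p_ne (Ne.symm hlm)]; simp
    · intro h; exact absurd hm h
  · rw [Finset.sum_mul_sum, ← B.L.sum]
    refine Finset.sum_congr rfl fun m hm => ?_
    have hm' : m ≤ 2 * n := by rw [Finset.mem_range] at hm; omega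
    rw [Finset.sum_eq_single m]
    · calc B.L.p m * b m * A.L.p m * (A.L.p m * a m * B.L.p m)
          = B.L.p m * b m * (A.L.p m * A.L.p m) * a m * B.L.p m := by simp only [mul_assoc]
        _ = B.L.p m * b m * (a m * b m) * a m * B.L.p m := by
            rw [A.L.p_self, (hab m hm').1]
        _ = B.L.p m * ((b m * a m) * (b m * a m)) * B.L.p m := by simp only [mul_assoc]
        _ = B.L.p m := by rw [(hab m hm').2, B.L.p_self, B.L.p_self, B.L.p_self]
    · intro l _ hlm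
      calc B.L.p m * b m * A.L.p m * (A.L.p l * a l * B.L.p l)
          = B.L.p m * b m * (A.L.p m * A.L.p l) * a l * B.L.p l := by simp only [mul_assoc]
        _ = 0 := by rw [A.L.p_ne (Ne.symm hlm)]; simp
    · intro h; exact absurd hm h
  · have e : ((phi hK : H.A X →ₗ[ℂ] H.A Y) ∘ₗ ρ0 H X (∑ m ∈ Finset.range (2 * n + 1),
        B.L.p m * b m * A.L.p m)) = ∑ m ∈ Finset.range (2 * n + 1),
        ((dg (T.coh Y hY) m : Module.End ℂ (H.A Y)) ∘ₗ ((phi hK : H.A X →ₗ[ℂ] H.A Y) ∘ₗ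
          ρ0 H X (b m)) ∘ₗ (dg (T.coh X hX) m : Module.End ℂ (H.A X))) := by
      ext x
      rw [map_sum, LinearMap.comp_apply, LinearMap.sum_apply, LinearMap.sum_apply, map_sum]
      refine Finset.sum_congr rfl fun m _ => ?_
      rw [map_mul, map_mul, rho_A A hA]
      simp only [LinearMap.comp_apply, Module.End.mul_apply, LinearEquiv.coe_coe]
      rw [← rho_B hK B hB', rY_apply, LinearEquiv.symm_apply_apply]
    rw [e]
    refine IsAlgD.sum _ fun m _ => ?_
    obtain ⟨Γ, hΓ⟩ := (alg_phi hK).comp (ρ0_alg (b m))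
    obtain ⟨G, hG1, hG2⟩ := exists_comp T (X := X) (Y := Y) hY Γ
    have h1 : IsAlgD H 0 (H.actL (H.cl (G 0))) := ⟨G 0, hG1 0, fun _ => rfl⟩
    have h2 := h1.comp (alg_dg T hX hB m)
    rw [add_zero] at h2
    convert h2 using 1
    refine ext_hd T fun p q x hx => ?_
    have e1 := dg_of (T.coh X hX) hx m
    simp only [LinearMap.comp_apply, TheoryData.actL_apply] at hΓ ⊢
    rw [e1]
    split_ifs with hpq
    · rw [hΓ]
      exact hG2 0 m m (by ring) p q x hpq hx
    · rw [hΓ]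
      have e2 : H.act (H.cl Γ) (0 : H.A X) = 0 := H.act_map_zero _
      have e3 : H.act (H.cl (G 0)) (0 : H.A X) = 0 := H.act_map_zero _
      rw [e2, e3]
      exact map_zero (dg (T.coh Y hY) m)
  · have e : (ρ0 H X (∑ m ∈ Finset.range (2 * n + 1), A.L.p m * a m * B.L.p m) ∘ₗ
        ((phi hK).symm : H.A Y →ₗ[ℂ] H.A X)) = ∑ m ∈ Finset.range (2 * n + 1),
        ((dg (T.coh X hX) m : Module.End ℂ (H.A X)) ∘ₗ (ρ0 H X (a m) ∘ₗ
          ((phi hK).symm : H.A Y →ₗ[ℂ] H.A X)) ∘ₗ (dg (T.coh Y hY) m : Module.End ℂ (H.A Y))) := by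
      ext y
      rw [map_sum, LinearMap.comp_apply, LinearMap.sum_apply, LinearMap.sum_apply]
      refine Finset.sum_congr rfl fun m _ => ?_
      rw [map_mul, map_mul, rho_A A hA]
      simp only [LinearMap.comp_apply, Module.End.mul_apply, LinearEquiv.coe_coe]
      rw [← rho_B hK B hB', rY_apply, LinearEquiv.symm_apply_apply]
    rw [e]
    refine IsAlgD.sum _ fun m _ => ?_
    obtain ⟨Γ, hΓ⟩ := (ρ0_alg (a m)).comp (alg_psi hK)
    obtain ⟨G, hG1, hG2⟩ := exists_comp T (X := Y) (Y := X) hX Γ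
    have h1 : IsAlgD H 0 (H.actL (H.cl (G 0))) := ⟨G 0, hG1 0, fun _ => rfl⟩
    have h2 := h1.comp (alg_dgY hK hB m)
    rw [add_zero] at h2
    convert h2 using 1
    refine ext_hd T fun p q x hx => ?_
    have e1 := dg_of (T.coh Y hY) hx m
    simp only [LinearMap.comp_apply, TheoryData.actL_apply] at hΓ ⊢
    rw [e1]
    split_ifs with hpq
    · rw [hΓ]
      exact hG2 0 m m (by ring) p q x hpq hx
    · rw [hΓ]
      have e2 : H.act (H.cl Γ) (0 : H.A Y) = 0 := H.act_map_zero _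
      have e3 : H.act (H.cl (G 0)) (0 : H.A Y) = 0 := H.act_map_zero _
      rw [e2, e3]
      exact map_zero (dg (T.coh X hX) m)

end mult

/-- **Isomorphism of homological motives.** -/
theorem hom_small (hK : MukaiKernel T X Y hX hY v w) (hB : LefschetzType T X) {L : C.A X}
    {L' : C.A Y} (hL : C.Deg 1 L) (hL' : C.Deg 1 L')
    (hi : ∀ x : H.A X, H.act (H.cl v) (H.cl L * x) = H.cl L' * H.act (H.cl v) x)
    (h1 : SmallDefect (T.coh X hX) (H.cl L)) (h2 : SmallDefect (T.coh Y hY) (H.cl L'))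
    (hs : ∀ k m : ℕ, 1 ≤ k → 3 ≤ m → m + k = n → ∃ (Z Z' : KRing m) (a : ℂ)
      (s : Sect (T.coh X hX) (H.cl L) Z k a) (s' : Sect (T.coh Y hY) (H.cl L') Z' k a),
      s.ρ (T.coh X hX).ω = Z.ω ∧ s'.ρ (T.coh Y hY).ω = Z'.ω) :
    ∃ (f : C.A (X.prod Y)) (g : C.A (Y.prod X)), C.Deg n f ∧ C.Deg n g ∧
      (∀ a : H.A X, H.act (H.cl g) (H.act (H.cl f) a) = a) ∧
      (∀ b : H.A Y, H.act (H.cl f) (H.act (H.cl g) b) = b) := by
  have _ : FiniteDimensional ℚ (E H X) := finE T
  obtain ⟨A, hA⟩ := exists_actX T hX hB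
  have _ : IsSemisimpleRing (E H X) := A.semisimple
  obtain ⟨B, hB'⟩ := exists_actY hK hB
  have hΦ : ∀ a x, (fm hK).φ (A.ρ a x) = B.ρ a ((fm hK).φ x) := by
    intro a x
    rw [hA, hB']
    show phi hK _ = rY hK a (phi hK x)
    rw [rY_apply, LinearEquiv.symm_apply_apply]
  have h00 : ∀ S, tS S (A.L.p 0) = tS S (B.L.p 0) := fun S =>
    same_tS hK A hA B hB' hB (same_zero X Y) S
  obtain ⟨ℓ, hℓ⟩ := exists_E (H := H) (X := X) (b := mu (T.coh X hX) (H.cl L))
    (IsAlgD.mul (H := H) hL).alg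
  have hmult : ∀ (S : Submodule (E H X) (E H X)) (m : ℕ), m ≤ 2 * n →
      tS S (A.L.p m) = tS S (B.L.p m) := fun S =>
    mult_all hK A hA B hB' S (fun j hj => small_tS A B (fm hK) hΦ hi
      (by rw [hA]; exact hℓ) (T.cl_bar X L) (T.cl_bar Y L') h1 h2 hs h00 j hj S) (h00 S)
  obtain ⟨F, G, e1, e2, ⟨f, hf, hf'⟩, ⟨g, hg, hg'⟩⟩ := exists_FG' hK A hA B hB' hB hmult
  refine ⟨f, g, by rwa [add_zero, hX] at hf, by rwa [add_zero, hY] at hg, fun a => ?_, fun b => ?_⟩
  · rw [← hf', ← hg']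
    simp only [LinearMap.comp_apply, LinearEquiv.coe_coe, LinearEquiv.symm_apply_apply]
    rw [← Module.End.mul_apply, ← map_mul, e1, map_one]
    rfl
  · rw [← hg', ← hf']
    simp only [LinearMap.comp_apply, LinearEquiv.coe_coe]
    rw [← Module.End.mul_apply, ← map_mul, e2, map_one]
    simp

end Pool.Agent.E8helper34.OM
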