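import Pool.Agent.E8helper40.OR.Stmt
import Pool.Agent.E8helper34.OH.Rel

/-!
# The image of the restriction to a complete intersection
-/

set_option autoImplicit false
set_option linter.unusedSectionVars false

open CategoryTheory AlgebraicGeometry
open scoped ComplexConjugate

namespace Pool.Agent.E8helper34.OM

open Pool.Agent.H914 Pool.Agent.H914.VarClass Pool.Agent.H914.VarClass.Obj Pool.Agent.W492.BB
  Pool.Agent.W539.DI Pool.Agent.R941.OH Pool.Agent.E8helper40.OR Pool.Agent.R929.DH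
  Pool.Agent.E8helper34.OH

variable {k : Type} [Field k] {𝒱 : VarClass k} {C : TheoryData.{0, 0, 0} 𝒱 ℚ}
  {H : WeilTheoryData.{0, 0, 0} C ℂ}
  [hC : Pool.Agent.TH133.IsChowProj C] [hH : Pool.Agent.TH133.IsWeilProj H]
  {S X : 𝒱.Obj}

/-- Properties of the restriction to a complete intersection `S` in `X` with class `a L ^ k`. -/
structure IsSec (T : HodgeTheory H) (i : S ⟶ X) (L : C.A X) (k : ℕ) (a : ℂ) : Prop where
  dim : S.dim + k = X.dim
  ne : a ≠ 0
  deg : C.Deg 1 L
  cls : H.push i 1 = a • H.cl L ^ k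
  hyp : H.pull i (H.cl (T.hyp X)) = H.cl (T.hyp S)
  ker : ∀ x : H.A X, H.cl L ^ k * x = 0 → H.pull i x = 0

/-- the image of the restriction -/
noncomputable abbrev Im (H : WeilTheoryData.{0, 0, 0} C ℂ) (i : S ⟶ X) : Subalgebra ℂ (H.A S) := (H.pull i).range

variable (T : HodgeTheory H) (i : S ⟶ X)

/-- the classes of type `(p, q)` in the image -/
noncomputable def hdV (pq : ℤ × ℤ) : Submodule ℂ (Im H i) := (T.hd S pq).comap (Im H i).val.toLinearMap

theorem mem_hdV {pq : ℤ × ℤ} {z : Im H i} : z ∈ hdV T i pq ↔ (z : H.A S) ∈ T.hd S pq := Iff.rfl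

theorem exists_im (z : Im H i) : ∃ x : H.A X, H.pull i x = z := z.2

theorem hdV_internal : DirectSum.IsInternal (hdV T i) := by
  rw [DirectSum.isInternal_submodule_iff_iSupIndep_and_iSup_eq_top]
  constructor
  · intro pq
    rw [Submodule.disjoint_def]
    intro x hx hx'
    have h1 : iSupIndep (T.hd S) := (DirectSum.Decomposition.isInternal (T.hd S)).submodule_iSupIndep
    have h2 := (Submodule.disjoint_def.1 (h1 pq)) (x : H.A S) hx (by
      have h3 : (Im H i).val.toLinearMap x ∈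
          (⨆ (j : ℤ × ℤ) (_ : j ≠ pq), hdV T i j).map (Im H i).val.toLinearMap :=
        ⟨x, hx', rfl⟩
      rw [Submodule.map_iSup] at h3
      have h4 : (⨆ j : ℤ × ℤ, (⨆ (_ : j ≠ pq), hdV T i j).map (Im H i).val.toLinearMap) ≤
          ⨆ (j : ℤ × ℤ) (_ : j ≠ pq), T.hd S j := by
        refine iSup_le fun j => ?_
        rw [Submodule.map_iSup]
        refine iSup_le fun hj => ?_
        rintro _ ⟨y, hy, rfl⟩
        exact (le_iSup₂ (f := fun (j : ℤ × ℤ) (_ : j ≠ pq) => T.hd S j) j hj) hy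
      exact h4 h3)
    exact Subtype.ext h2
  · rw [eq_top_iff]
    rintro z -
    obtain ⟨x, hx⟩ := exists_im i z
    have key : ∀ x : H.A X, (⟨H.pull i x, ⟨x, rfl⟩⟩ : Im H i) ∈ ⨆ pq, hdV T i pq := by
      intro x
      refine ind_hd T (P := fun x => (⟨H.pull i x, ⟨x, rfl⟩⟩ : Im H i) ∈ ⨆ pq, hdV T i pq)
        ?_ ?_ ?_ x
      · have : (⟨H.pull i 0, ⟨0, rfl⟩⟩ : Im H i) = 0 := Subtype.ext (map_zero _)
        rw [this]
        exact Submodule.zero_mem _
      · intro x y hx hy
        have : (⟨H.pull i (x + y), ⟨x + y, rfl⟩⟩ : Im H i) =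
            ⟨H.pull i x, ⟨x, rfl⟩⟩ + ⟨H.pull i y, ⟨y, rfl⟩⟩ := Subtype.ext (map_add _ _ _)
        rw [this]
        exact Submodule.add_mem _ hx hy
      · intro p q x hx
        exact (le_iSup (hdV T i) (p, q)) (T.pull_mem i p q x hx)
    have : z = ⟨H.pull i x, ⟨x, rfl⟩⟩ := Subtype.ext hx.symm
    rw [this]
    exact key x

noncomputable instance gradedV : GradedRing (hdV T i) where
  one_mem := one_hd T S
  mul_mem := fun {a b x y} hx hy => SetLike.GradedMul.mul_mem (A := T.hd S) hx hy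
  toDecomposition := (hdV_internal T i).chooseDecomposition

variable {T i} {L : C.A X} {k' : ℕ} {a : ℂ}

theorem tr_pull (h : IsSec T i L k' a) (x : H.A X) :
    H.tr S (H.pull i x) = a * H.tr X (H.cl L ^ k' * x) := by
  rw [← H.tr_push i]
  have h1 : H.push i (H.pull i x) = H.push i 1 * x := by
    have := H.proj_right i 1 x
    rwa [one_mul] at this
  rw [h1, h.cls, smul_mul_assoc, map_smul, smul_eq_mul]

theorem im_nondeg (h : IsSec T i L k' a) {z : H.A S} (hz : z ∈ Im H i)
    (h0 : ∀ y ∈ Im H i, H.tr S (z * y) = 0) : z = 0 := by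
  obtain ⟨x, rfl⟩ := hz
  refine h.ker x (H.nondeg _ fun y => ?_)
  have h1 := h0 _ ⟨y, rfl⟩
  have h2 : H.pull i x * H.pull i y = H.pull i (x * y) := (map_mul _ _ _).symm
  have h3 : H.tr S (H.pull i x * H.pull i y) = 0 := h1
  rw [h2, tr_pull h, ← mul_assoc] at h3
  exact (mul_eq_zero.1 h3).resolve_left h.ne

theorem im_pd (h : IsSec T i L k' a) {p q : ℤ} {z : H.A S} (hz : z ∈ Im H i)
    (hz' : z ∈ T.hd S (p, q))
    (h0 : ∀ y ∈ Im H i, y ∈ T.hd S (S.dim - p, S.dim - q) → H.tr S (z * y) = 0) : z = 0 := by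
  refine im_nondeg h hz ?_
  rintro _ ⟨y, rfl⟩
  show H.tr S (z * H.pull i y) = 0
  refine ind_hd T (P := fun y => H.tr S (z * H.pull i y) = 0) ?_ ?_ ?_ y
  · rw [map_zero, mul_zero, map_zero]
  · intro x y hx hy
    rw [map_add, mul_add, map_add, hx, hy, add_zero]
  · intro p' q' y hy
    have hy' := T.pull_mem i p' q' y hy
    by_cases hpq : p' = S.dim - p ∧ q' = S.dim - q
    · obtain ⟨rfl, rfl⟩ := hpq
      exact h0 _ ⟨y, rfl⟩ hy'
    · refine T.tr_van S (p + p') (q + q') _ (SetLike.GradedMul.mul_mem hz' hy') ?_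
      intro h1
      apply hpq
      omega

theorem bar_im {z : H.A S} (hz : z ∈ Im H i) : T.bar S z ∈ Im H i := by
  obtain ⟨x, rfl⟩ := hz
  exact ⟨T.bar X x, (T.pull_bar i x).symm⟩

theorem pr_im (hS : S.dim = S.dim) (p q : ℤ) {z : H.A S} (hz : z ∈ Im H i) :
    pr (T.coh S hS) p q z ∈ Im H i := by
  obtain ⟨x, rfl⟩ := hz
  refine ind_hd T (P := fun x => pr (T.coh S hS) p q (H.pull i x) ∈ Im H i) ?_ ?_ ?_ x
  · have h1 : H.pull i (0 : H.A X) = 0 := map_zero _
    rw [h1]
    have h2 : pr (T.coh S hS) p q (0 : H.A S) = 0 := map_zero (pr (T.coh S hS) p q)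
    rw [h2]
    exact Subalgebra.zero_mem _
  · intro x y hx hy
    have h1 : H.pull i (x + y) = H.pull i x + H.pull i y := map_add _ _ _
    rw [h1]
    have h2 : pr (T.coh S hS) p q (H.pull i x + H.pull i y) =
        pr (T.coh S hS) p q (H.pull i x) + pr (T.coh S hS) p q (H.pull i y) :=
      map_add (pr (T.coh S hS) p q) _ _
    rw [h2]
    exact Subalgebra.add_mem _ hx hy
  · intro a b x hx
    have h1 : pr (T.coh S hS) p q (H.pull i x) =
        (if ((a, b) : ℤ × ℤ) = (p, q) then (1 : ℂ) else 0) • H.pull i x := by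
      unfold pr
      exact diag_of (T.coh S hS) _ (T.pull_mem i a b x hx)
    rw [h1]
    exact Subalgebra.smul_mem _ (show H.pull i x ∈ Im H i from ⟨x, rfl⟩) _

/-- hard Lefschetz in the image -/
theorem im_surj (h : IsSec T i L k' a) (p q : ℤ) (m : ℕ) (hm : p + q + m = S.dim) (y : H.A S)
    (hy : y ∈ Im H i) (hy' : y ∈ T.hd S (p + m, q + m)) :
    ∃ x ∈ Im H i, x ∈ T.hd S (p, q) ∧ H.cl (T.hyp S) ^ m * x = y := by
  obtain ⟨x, hx, hxy⟩ := T.hl_surj S p q m hm y hy'
  have _ := T.fin S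
  -- the orthogonal projection of `x` to the image
  let B : Im H i →ₗ[ℂ] Module.Dual ℂ (Im H i) :=
    { toFun := fun z => (H.tr S) ∘ₗ (LinearMap.mulLeft ℂ (z : H.A S)) ∘ₗ (Im H i).val.toLinearMap
      map_add' := fun z w => by
        ext v
        show H.tr S (((z : H.A S) + w) * v) = H.tr S ((z : H.A S) * v) + H.tr S ((w : H.A S) * v)
        rw [add_mul, map_add]
      map_smul' := fun c z => by
        ext v
        show H.tr S ((c • (z : H.A S)) * v) = c * H.tr S ((z : H.A S) * v)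
        rw [smul_mul_assoc, map_smul, smul_eq_mul] }
  have hB : ∀ z v : Im H i, B z v = H.tr S ((z : H.A S) * v) := fun z v => rfl
  have hinj : Function.Injective B := by
    rw [injective_iff_map_eq_zero]
    intro z hz
    refine Subtype.ext (im_nondeg h z.2 fun y hy => ?_)
    have := congrArg (fun g : Module.Dual ℂ (Im H i) => g ⟨y, hy⟩) hz
    exact this
  have hfin : FiniteDimensional ℂ (Im H i) :=
    FiniteDimensional.finiteDimensional_submodule (Subalgebra.toSubmodule (Im H i))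
  have hsurj : Function.Surjective B :=
    (LinearMap.injective_iff_surjective_of_finrank_eq_finrank
      (Subspace.dual_finrank_eq (K := ℂ) (V := Im H i)).symm).1 hinj
  obtain ⟨z, hz⟩ := hsurj ((H.tr S) ∘ₗ (LinearMap.mulLeft ℂ x) ∘ₗ (Im H i).val.toLinearMap)
  have hz' : ∀ v ∈ Im H i, H.tr S ((z : H.A S) * v) = H.tr S (x * v) := fun v hv =>
    congrArg (fun g : Module.Dual ℂ (Im H i) => g ⟨v, hv⟩) hz
  -- its component of type `(p, q)`
  set z' : H.A S := pr (T.coh S rfl) p q (z : H.A S) with hzdef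
  have hz1 : z' ∈ Im H i := pr_im rfl p q z.2
  have hz2 : z' ∈ T.hd S (p, q) := pr_mem (T.coh S rfl) p q (z : H.A S)
  have hz3 : ∀ v ∈ Im H i, H.tr S (z' * v) = H.tr S (x * v) := by
    rintro _ ⟨v, rfl⟩
    show H.tr S (z' * H.pull i v) = H.tr S (x * H.pull i v)
    refine ind_hd T (P := fun v => H.tr S (z' * H.pull i v) = H.tr S (x * H.pull i v)) ?_ ?_ ?_ v
    · rw [map_zero, mul_zero, mul_zero]
    · intro v w hv hw
      rw [map_add, mul_add, mul_add, map_add, map_add, hv, hw]
    · intro p' q' v hv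
      have hv' := T.pull_mem i p' q' v hv
      by_cases hpq : p + p' = S.dim ∧ q + q' = S.dim
      · refine Eq.trans ?_ (hz' (H.pull i v) ⟨v, rfl⟩)
        have key : ∀ w : H.A S, H.tr S (pr (T.coh S rfl) p q w * H.pull i v) =
            H.tr S (w * H.pull i v) := by
          intro w
          refine ind_hd T (P := fun w => H.tr S (pr (T.coh S rfl) p q w * H.pull i v) =
            H.tr S (w * H.pull i v)) ?_ ?_ ?_ w
          · have h2 : pr (T.coh S rfl) p q (0 : H.A S) = 0 := map_zero (pr (T.coh S rfl) p q)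
            rw [h2]
          · intro w w' hw hw'
            have h2 : pr (T.coh S rfl) p q (w + w') =
              pr (T.coh S rfl) p q w + pr (T.coh S rfl) p q w' :=
              map_add (pr (T.coh S rfl) p q) _ _
            rw [h2, add_mul, add_mul, map_add, map_add]
            exact congrArg₂ (· + ·) hw hw'
          · intro a b w hw
            have h1 : pr (T.coh S rfl) p q w =
                (if ((a, b) : ℤ × ℤ) = (p, q) then (1 : ℂ) else 0) • w := by
              unfold pr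
              exact diag_of (T.coh S rfl) _ hw
            rw [h1]
            by_cases hab : ((a, b) : ℤ × ℤ) = (p, q)
            · rw [if_pos hab, one_smul]
            · rw [if_neg hab, zero_smul, zero_mul, map_zero]
              symm
              refine T.tr_van S (a + p') (b + q') _ (SetLike.GradedMul.mul_mem hw hv') ?_
              rintro ⟨h3, h4⟩
              apply hab
              rw [Prod.mk.injEq]
              constructor <;> omega
        exact key z
      · rw [T.tr_van S (p + p') (q + q') _ (SetLike.GradedMul.mul_mem hz2 hv') hpq,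
          T.tr_van S (p + p') (q + q') _ (SetLike.GradedMul.mul_mem hx hv') hpq]
  have hom : ∀ j : ℕ, ∀ v ∈ Im H i, H.cl (T.hyp S) ^ j * v ∈ Im H i := by
    rintro j _ ⟨v, rfl⟩
    refine ⟨H.cl (T.hyp X) ^ j * v, ?_⟩
    show H.pull i (H.cl (T.hyp X) ^ j * v) = H.cl (T.hyp S) ^ j * H.pull i v
    rw [map_mul, map_pow, h.hyp]
  have hc : ∀ (j : ℕ) (v : H.A S), H.cl (T.hyp S) ^ j * v = v * H.cl (T.hyp S) ^ j := fun j v =>
    pow_central (X := T.coh S rfl) (T.coh S rfl).ω_mem j v
  refine ⟨z', hz1, hz2, ?_⟩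
  have h5 : y - H.cl (T.hyp S) ^ m * z' = 0 := by
    refine im_nondeg h (Subalgebra.sub_mem _ hy (hom m _ hz1)) fun v hv => ?_
    rw [← hxy, ← mul_sub, hc, mul_assoc, sub_mul, map_sub, hz3 _ (hom m v hv), sub_self]
  exact (sub_eq_zero.1 h5).symm

/-- the image as the cohomology of a variety -/
@[reducible] noncomputable def krV (h : IsSec T i L k' a) {m : ℕ} (hm : S.dim = m) : KRing m where
  R := Im H i
  ring := inferInstance
  alg := inferInstance
  fin := by
    have _ := T.fin S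
    exact FiniteDimensional.finiteDimensional_submodule (Subalgebra.toSubmodule (Im H i))
  H := hdV T i
  gr := gradedV T i
  van := fun p q hpq => by
    rw [eq_bot_iff]
    intro z hz
    have h1 : (z : H.A S) ∈ T.hd S (p, q) := hz
    rw [T.van S p q hpq, Submodule.mem_bot] at h1
    rw [Submodule.mem_bot]
    exact Subtype.ext h1
  conn := by
    refine (finrank_eq_one_iff_of_nonzero' (⟨1, one_hd T S⟩ : hdV T i (0, 0)) ?_).2 ?_
    · intro h1
      exact hH.one_ne_zero S (congrArg Subtype.val (congrArg Subtype.val h1))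
    · rintro ⟨y, hy⟩
      have hy' : (y : H.A S) ∈ T.hd S (0, 0) := hy
      obtain ⟨c, hc⟩ := hH.gr_zero S y (by simpa using T.hd_le S 0 0 hy')
      exact ⟨c, Subtype.ext (Subtype.ext hc.symm)⟩
  comm := fun p q p' q' x y hx hy => Subtype.ext (T.comm S p q p' q' x y hx hy)
  bar := { toFun := fun z => ⟨T.bar S z, bar_im z.2⟩
           map_add' := fun x y => Subtype.ext (map_add (T.bar S) _ _)
           map_smul' := fun c x => Subtype.ext (LinearMap.map_smulₛₗ (T.bar S) c x) }
  bar_bar := fun x => Subtype.ext (T.bar_bar S x)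
  bar_mul := fun x y => Subtype.ext (T.bar_mul S x y)
  bar_mem := fun p q x hx => T.bar_mem S p q x hx
  tr := H.tr S ∘ₗ (Im H i).val.toLinearMap
  tr_van := fun p q x hx h1 => T.tr_van S p q x hx (by rwa [hm])
  tr_bar := fun x => T.tr_bar S x
  pd := fun p q x hx h0 => Subtype.ext (im_pd h x.2 hx fun y hy hy' =>
    h0 ⟨y, hy⟩ (by rw [← hm]; exact hy'))
  ω := ⟨H.cl (T.hyp S), ⟨H.cl (T.hyp X), h.hyp⟩⟩
  ω_mem := T.cl_mem S 1 _ (T.hyp_deg S)
  ω_bar := Subtype.ext (T.cl_bar S _)
  hl_inj := fun p q j hj x hx h0 => Subtype.ext (T.hl_inj S p q j (by rw [hj, hm]) x hx (by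
    have := congrArg Subtype.val h0
    exact this))
  hl_surj := fun p q j hj y hy => by
    obtain ⟨x, hx, hx', hxy⟩ := im_surj h p q j (by rw [hj, hm]) y y.2 hy
    exact ⟨⟨x, hx⟩, hx', Subtype.ext hxy⟩
  hr := fun p q j hj x hx hne h0 => by
    obtain ⟨r, hr, he⟩ := T.hr S p q j (by rw [hj, hm]) x hx (fun h1 => hne (Subtype.ext h1))
      (congrArg Subtype.val h0)
    exact ⟨r, hr, he⟩
  c := ⟨H.pull i (H.cl (T.c₁ X)), ⟨_, rfl⟩⟩
  c_mem := T.pull_mem i 1 1 _ (T.cl_mem X 1 _ (T.c₁_deg X))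
  c_bar := Subtype.ext (by
    show T.bar S (H.pull i (H.cl (T.c₁ X))) = H.pull i (H.cl (T.c₁ X))
    rw [T.pull_bar, T.cl_bar])

/-- the restriction to the section -/
noncomputable def sectV (h : IsSec T i L k' a) {m n : ℕ} (hm : S.dim = m) (hn : X.dim = n) :
    Sect (T.coh X hn) (H.cl L) (krV h hm) k' a where
  dim := by rw [← hm, ← hn, h.dim]
  ρ := (H.pull i).rangeRestrict
  surj := (H.pull i).rangeRestrict_surjective
  mem := fun p q x hx => T.pull_mem i p q x hx
  real := fun x => Subtype.ext (T.pull_bar i x).symm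
  c := rfl
  L_mem := T.cl_mem X 1 _ h.deg
  a_ne := h.ne
  tr := fun x => tr_pull h x

theorem sectV_om (h : IsSec T i L k' a) {m n : ℕ} (hm : S.dim = m) (hn : X.dim = n) :
    (sectV h hm hn).ρ (T.coh X hn).ω = (krV h hm).ω := Subtype.ext h.hyp

end Pool.Agent.E8helper34.OM
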