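import Pool.Agent.E8helper34.OM.Def
import Pool.Agent.E8helper34.OM.SectV
import Pool.Agent.E8helper34.OM.Mot

/-!
# Comparison of the definitions
-/

set_option autoImplicit false
set_option linter.unusedSectionVars false

open CategoryTheory AlgebraicGeometry

namespace Pool.Agent.E8helper34.OM

open Pool.Agent.H914 Pool.Agent.H914.VarClass Pool.Agent.H914.VarClass.Obj Pool.Agent.W492.BB
  Pool.Agent.W550.Corr Pool.Agent.TH133 Pool.Agent.E8helper40.OR Pool.Agent.W539.DI
  Pool.Agent.R941.OH Pool.Agent.R929.DH Pool.Agent.E8helper34.OH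

variable {k : Type} [Field k] {𝒱 : VarClass k} {C : TheoryData.{0, 0, 0} 𝒱 ℚ}
  {H : WeilTheoryData.{0, 0, 0} C ℂ} [IsChowProj C] [IsWeilProj H] {T : HodgeData H}
  {X Y : 𝒱.Obj}

theorem Small.defect (hT : T.IsTheory) {L : C.A X} (h : Small T L) {n : ℕ} (hn : X.dim = n) :
    SmallDefect ((T.th hT).coh X hn) (H.cl L) := fun p q j hj x hx h0 =>
  h p q j (by rw [hj, hn]) x hx h0

theorem IsSection.sec (hT : T.IsTheory) {S X : 𝒱.Obj} {i : S ⟶ X} {L : C.A X} {j : ℕ} {a : ℂ}
    (hL : C.Deg 1 L) (h : IsSection T i L j a) : IsSec (T.th hT) i L j a where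
  dim := h.dim
  ne := h.ne
  deg := hL
  cls := by
    have := h.cls
    unfold sc lpow cyc at this
    rwa [mul_one] at this
  hyp := h.hyp
  ker := h.ker

/-- **The motives.** -/
theorem motives (hT : T.IsTheory) (hXY : Y.dim = X.dim) {v : C.A (X.prod Y)}
    {w : C.A (Y.prod X)} (hvw : T.MukaiPair X Y v w) (hB : T.LefschetzType X) {L : C.A X}
    {L' : C.A Y} (hL : C.Deg 1 L) (hL' : C.Deg 1 L') (hi : Compatible T v L L')
    (h1 : Small T L) (h2 : Small T L') (hs : Sections T L L') :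
    HomIso H X Y ∧ ∀ N : ℕ, NilpotentOfIndex H X N → ChowIso C X Y := by
  have hK := hvw.kernel hT (n := X.dim) rfl hXY
  have hi' : ∀ x : H.A X, H.act (H.cl v) (H.cl L * x) = H.cl L' * H.act (H.cl v) x := by
    rcases hi with ⟨rfl, rfl⟩ | h
    · exact intertwines_c (fm hK)
    · intro x
      have := h x
      unfold lpow cact cyc at this
      rwa [pow_one, pow_one] at this
  obtain ⟨f, g, hf, hg, e1, e2⟩ := hom_small hK hB hL hL' hi' (h1.defect hT rfl)
    (h2.defect hT hXY) (fun j m hj hm hmj => by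
      obtain ⟨S, S', i, i', a, s, s'⟩ := hs j m hj hm hmj
      have hS : S.dim = m := by
        have := s.dim
        omega
      have hS' : S'.dim = m := by
        have := s'.dim
        omega
      exact ⟨_, _, a, sectV (s.sec hT hL) hS rfl, sectV (s'.sec hT hL') hS' hXY,
        sectV_om (s.sec hT hL) hS rfl, sectV_om (s'.sec hT hL') hS' hXY⟩)
  refine ⟨⟨f, g, hf, by rwa [hXY], e1, e2⟩, fun N hN => ?_⟩
  obtain ⟨f', g', hf', hg', e1', e2'⟩ := chow_iso rfl hXY (nil_X hN)
    (nil_Y hvw.left hvw.right hN) hf hg e1 e2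
  exact ⟨f', g', hf', by rwa [hXY], e1', e2'⟩

end Pool.Agent.E8helper34.OM
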